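import Mathlib

set_option autoImplicit false

namespace Pool.Agent.Lib.MP_6460d1_co

open SimpleGraph

/-- A 3-extremal split graph: the vertex set is the union of a clique `C` and a stable set (the
complement of `C`), the graph is connected, it has diameter exactly `3`, and its adjacency matrix
has exactly `4` distinct (real) eigenvalues. -/
def IsThreeExtremalSplit {V : Type} [Fintype V] [DecidableEq V] (G : SimpleGraph V)
    [DecidableRel G.Adj] : Prop :=
  (∃ C : Set V, G.IsClique C ∧ G.IsIndepSet Cᶜ) ∧ G.Connected ∧ G.diam = 3 ∧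
    {θ : ℝ | ∃ x : V → ℝ, x ≠ 0 ∧ (G.adjMatrix ℝ).mulVec x = θ • x}.ncard = 4

end Pool.Agent.Lib.MP_6460d1_co
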