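import Pool.Agent.Lib.MP_6460d1_co.Defs

set_option autoImplicit false
set_option linter.unusedSectionVars false

/-!
For every `t ≥ 4` there is a 3-extremal split graph with exactly `t` distinct vertex degrees.

The clique is a point set `P` with `v` points, the stable set is the set of blocks of a design on
`P` with blocks of many sizes in which every point lies in `μ ^ 2` blocks and every pair of points
lies in `μ` blocks.  The spectrum is then `{μ + v - 1, μ - 1, -μ, 0}`.
-/

namespace Pool.Agent.Lib.MP_6460d1_co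

open SimpleGraph Finset

section Defs

variable {P ι : Type}

/-- The split graph with clique `P` and stable set `ι` in which the block `i` is joined to the
points of `N i`. -/
def splitGraph (N : ι → Finset P) : SimpleGraph (P ⊕ ι) where
  Adj a b := Sum.elim (fun p => Sum.elim (fun q => p ≠ q) (fun i => p ∈ N i) b)
    (fun i => Sum.elim (fun q => q ∈ N i) (fun _ => False) b) a
  symm := ⟨by
    rintro (p | i) (q | j) h
    · exact Ne.symm h
    · exact h
    · exact h
    · exact h⟩
  loopless := ⟨by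
    rintro (p | i) h
    · exact h rfl
    · exact h⟩

@[simp] lemma adj_ll (N : ι → Finset P) (p q : P) :
    (splitGraph N).Adj (Sum.inl p) (Sum.inl q) ↔ p ≠ q := Iff.rfl
@[simp] lemma adj_lr (N : ι → Finset P) (p : P) (i : ι) :
    (splitGraph N).Adj (Sum.inl p) (Sum.inr i) ↔ p ∈ N i := Iff.rfl
@[simp] lemma adj_rl (N : ι → Finset P) (p : P) (i : ι) :
    (splitGraph N).Adj (Sum.inr i) (Sum.inl p) ↔ p ∈ N i := Iff.rfl
@[simp] lemma adj_rr (N : ι → Finset P) (j i : ι) :
    (splitGraph N).Adj (Sum.inr j) (Sum.inr i) ↔ False := Iff.rfl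

instance decAdj [DecidableEq P] (N : ι → Finset P) : DecidableRel (splitGraph N).Adj := by
  rintro (p | i) (q | j)
  · exact decidable_of_iff _ (adj_ll N p q).symm
  · exact decidable_of_iff _ (adj_lr N p j).symm
  · exact decidable_of_iff _ (adj_rl N q i).symm
  · exact decidable_of_iff _ (adj_rr N i j).symm

end Defs

section General

variable {P ι : Type} [Fintype P] [DecidableEq P] [Fintype ι] [DecidableEq ι]

lemma mulVec_inl (N : ι → Finset P) (w : P ⊕ ι → ℝ) (p : P) :
    ((splitGraph N).adjMatrix ℝ).mulVec w (Sum.inl p) =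
      (∑ q, w (Sum.inl q)) - w (Sum.inl p) + ∑ i, if p ∈ N i then w (Sum.inr i) else 0 := by
  simp only [Matrix.mulVec, dotProduct, Fintype.sum_sum_type, adjMatrix_apply, adj_ll, adj_lr,
    ite_mul, one_mul, zero_mul]
  congr 1
  rw [eq_sub_iff_add_eq]
  have : w (Sum.inl p) = ∑ q, if p = q then w (Sum.inl q) else 0 := by simp
  rw [this, ← Finset.sum_add_distrib]
  refine Finset.sum_congr rfl fun q _ => ?_
  by_cases h : p = q <;> simp [h]

lemma mulVec_inr (N : ι → Finset P) (w : P ⊕ ι → ℝ) (i : ι) :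
    ((splitGraph N).adjMatrix ℝ).mulVec w (Sum.inr i) =
      ∑ q, if q ∈ N i then w (Sum.inl q) else 0 := by
  simp [Matrix.mulVec, dotProduct, Fintype.sum_sum_type, adjMatrix_apply]

/-- The design property. -/
def IsDesign (N : ι → Finset P) (μ : ℝ) : Prop :=
  ∀ p q : P, (∑ i, if p ∈ N i ∧ q ∈ N i then (1 : ℝ) else 0) = if p = q then μ ^ 2 else μ

lemma double_sum (N : ι → Finset P) (μ : ℝ) (hN : IsDesign N μ) (x : P → ℝ) (p : P) :
    (∑ i, if p ∈ N i then (∑ q, if q ∈ N i then x q else 0) else 0) =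
      μ ^ 2 * x p + μ * ((∑ q, x q) - x p) := by
  have h1 : (∑ i, if p ∈ N i then (∑ q, if q ∈ N i then x q else 0) else 0) =
      ∑ q, (∑ i, if p ∈ N i ∧ q ∈ N i then (1 : ℝ) else 0) * x q := by
    have : ∀ i, (if p ∈ N i then (∑ q, if q ∈ N i then x q else 0) else 0) =
        ∑ q, (if p ∈ N i ∧ q ∈ N i then (1 : ℝ) else 0) * x q := by
      intro i
      by_cases h : p ∈ N i
      · simp [h]
      · simp [h]
    simp_rw [this, Finset.sum_mul]
    rw [Finset.sum_comm]
  rw [h1]
  have h2 : ∀ q, (∑ i, if p ∈ N i ∧ q ∈ N i then (1 : ℝ) else 0) * x q =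
      μ * x q + (if p = q then (μ ^ 2 - μ) * x q else 0) := by
    intro q
    rw [hN p q]
    by_cases h : p = q
    · simp [h]; ring
    · simp [h]
  simp_rw [h2, Finset.sum_add_distrib, ← Finset.mul_sum]
  simp
  ring

lemma eig_sub (N : ι → Finset P) (μ : ℝ) (hN : IsDesign N μ) (θ : ℝ) (w : P ⊕ ι → ℝ)
    (hw : w ≠ 0) (h : ((splitGraph N).adjMatrix ℝ).mulVec w = θ • w) :
    θ = μ + (Fintype.card P : ℝ) - 1 ∨ θ = μ - 1 ∨ θ = -μ ∨ θ = 0 := by
  have hl : ∀ p, (∑ q, w (Sum.inl q)) - w (Sum.inl p) +
      (∑ i, if p ∈ N i then w (Sum.inr i) else 0) = θ * w (Sum.inl p) := by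
    intro p
    rw [← mulVec_inl N w p, h]; rfl
  have hr : ∀ i, (∑ q, if q ∈ N i then w (Sum.inl q) else 0) = θ * w (Sum.inr i) := by
    intro i
    rw [← mulVec_inr N w i, h]; rfl
  set s := ∑ q, w (Sum.inl q) with hs
  have key : ∀ p, (θ + μ) * (s - (θ - μ + 1) * w (Sum.inl p)) = 0 := by
    intro p
    have h3 := double_sum N μ hN (fun q => w (Sum.inl q)) p
    simp only [hr] at h3
    have h4 : (∑ i, if p ∈ N i then θ * w (Sum.inr i) else 0) =
        θ * ∑ i, if p ∈ N i then w (Sum.inr i) else 0 := by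
      rw [Finset.mul_sum]
      refine Finset.sum_congr rfl fun i _ => ?_
      by_cases h : p ∈ N i <;> simp [h]
    rw [h4, ← hs] at h3
    have h5 := hl p
    linear_combination θ * h5 - h3
  by_cases h1 : θ + μ = 0
  · right; right; left; linarith
  have key2 : ∀ p, s = (θ - μ + 1) * w (Sum.inl p) := by
    intro p
    have := key p
    rcases mul_eq_zero.1 this with h | h
    · exact absurd h h1
    · linarith
  by_cases h2 : θ - μ + 1 = 0
  · right; left; linarith
  by_cases h0 : θ = 0
  · right; right; right; exact h0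
  left
  have hconst : ∀ p q, w (Sum.inl p) = w (Sum.inl q) := by
    intro p q
    have := (key2 p).symm.trans (key2 q)
    exact mul_left_cancel₀ h2 this
  have hx : ∃ p, w (Sum.inl p) ≠ 0 := by
    by_contra hcon
    push Not at hcon
    apply hw
    funext a
    rcases a with p | i
    · exact hcon p
    · have := hr i
      simp only [hcon, ite_self, Finset.sum_const_zero] at this
      rcases mul_eq_zero.1 this.symm with h | h
      · exact absurd h h0
      · exact h
  obtain ⟨p, hp⟩ := hx
  have hs2 : s = (Fintype.card P : ℝ) * w (Sum.inl p) := by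
    rw [hs, Finset.sum_congr rfl (fun q _ => hconst q p)]
    simp
  have h7 := key2 p
  rw [hs2] at h7
  have := mul_right_cancel₀ hp h7
  linarith

/-- eigenvectors of the form `y = c * N x`. -/
lemma eig_mem (N : ι → Finset P) (μ : ℝ) (hN : IsDesign N μ) (θ : ℝ) (hθ : θ ≠ 0)
    (x : P → ℝ) (hx : x ≠ 0)
    (h : ∀ p, (θ + μ) * ((∑ q, x q) - (θ - μ + 1) * x p) = 0) :
    ∃ w : P ⊕ ι → ℝ, w ≠ 0 ∧ ((splitGraph N).adjMatrix ℝ).mulVec w = θ • w := by
  refine ⟨Sum.elim x (fun i => θ⁻¹ * ∑ q, if q ∈ N i then x q else 0), ?_, ?_⟩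
  · intro h0
    apply hx
    funext p
    exact congrFun h0 (Sum.inl p)
  · funext a
    rcases a with p | i
    · rw [mulVec_inl]
      simp only [Sum.elim_inl, Sum.elim_inr, Pi.smul_apply, smul_eq_mul]
      have h4 : (∑ i, if p ∈ N i then θ⁻¹ * (∑ q, if q ∈ N i then x q else 0) else 0) =
          θ⁻¹ * ∑ i, if p ∈ N i then (∑ q, if q ∈ N i then x q else 0) else 0 := by
        rw [Finset.mul_sum]
        refine Finset.sum_congr rfl fun i _ => ?_
        by_cases h : p ∈ N i <;> simp [h]
      rw [h4, double_sum N μ hN]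
      have hp := h p
      field_simp
      linear_combination hp
    · rw [mulVec_inr]
      simp only [Sum.elim_inl, Sum.elim_inr, Pi.smul_apply, smul_eq_mul]
      field_simp

lemma eig_zero (N : ι → Finset P) (y : ι → ℝ) (hy : y ≠ 0)
    (h : ∀ p, (∑ i, if p ∈ N i then y i else 0) = 0) :
    ∃ w : P ⊕ ι → ℝ, w ≠ 0 ∧ ((splitGraph N).adjMatrix ℝ).mulVec w = (0 : ℝ) • w := by
  refine ⟨Sum.elim (fun _ => 0) y, ?_, ?_⟩
  · intro h0
    apply hy
    funext i
    exact congrFun h0 (Sum.inr i)
  · funext a
    rcases a with p | i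
    · rw [mulVec_inl]
      simp [h p]
    · rw [mulVec_inr]
      simp

lemma isSplit (N : ι → Finset P) :
    ∃ C : Set (P ⊕ ι), (splitGraph N).IsClique C ∧ (splitGraph N).IsIndepSet Cᶜ := by
  refine ⟨Set.range Sum.inl, ?_, ?_⟩
  · rintro _ ⟨p, rfl⟩ _ ⟨q, rfl⟩ h
    simpa using h
  · rintro (p | i) hp (q | j) hq h
    · exact absurd ⟨p, rfl⟩ hp
    · exact absurd ⟨p, rfl⟩ hp
    · exact absurd ⟨q, rfl⟩ hq
    · simp

end General

section Dist

variable {P ι : Type} [Fintype P] [DecidableEq P] [Fintype ι] [DecidableEq ι]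

lemma walk_le_three (N : ι → Finset P) (hN : ∀ i, (N i).Nonempty) (a b : P ⊕ ι) :
    ∃ w : (splitGraph N).Walk a b, w.length ≤ 3 := by
  have hpp : ∀ p q : P, ∃ w : (splitGraph N).Walk (Sum.inl p) (Sum.inl q), w.length ≤ 1 := by
    intro p q
    by_cases h : p = q
    · subst h
      exact ⟨Walk.nil, by simp⟩
    · exact ⟨Walk.cons ((adj_ll N p q).2 h) Walk.nil, by simp⟩
  rcases a with p | i <;> rcases b with q | j
  · obtain ⟨w, hw⟩ := hpp p q
    exact ⟨w, by omega⟩
  · obtain ⟨q, hq⟩ := hN j
    obtain ⟨w, hw⟩ := hpp p q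
    refine ⟨w.append (Walk.cons ((adj_lr N q j).2 hq) Walk.nil), ?_⟩
    simp only [Walk.length_append, Walk.length_cons, Walk.length_nil]
    omega
  · obtain ⟨p, hp⟩ := hN i
    obtain ⟨w, hw⟩ := hpp p q
    refine ⟨Walk.cons ((adj_rl N p i).2 hp) w, ?_⟩
    simp only [Walk.length_cons]
    omega
  · obtain ⟨p, hp⟩ := hN i
    obtain ⟨q, hq⟩ := hN j
    obtain ⟨w, hw⟩ := hpp p q
    refine ⟨Walk.cons ((adj_rl N p i).2 hp) (w.append (Walk.cons ((adj_lr N q j).2 hq) Walk.nil)),
      ?_⟩
    simp only [Walk.length_append, Walk.length_cons, Walk.length_nil]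
    omega

lemma connected (N : ι → Finset P) (hN : ∀ i, (N i).Nonempty) [Nonempty P] :
    (splitGraph N).Connected := by
  have : Nonempty (P ⊕ ι) := ⟨Sum.inl (Classical.arbitrary P)⟩
  exact Connected.mk fun a b => (walk_le_three N hN a b).choose.reachable

lemma walk_ge_three (N : ι → Finset P) (i j : ι) (hij : i ≠ j) (hd : Disjoint (N i) (N j))
    (w : (splitGraph N).Walk (Sum.inr i) (Sum.inr j)) : 3 ≤ w.length := by
  cases w with
  | nil => exact absurd rfl hij
  | @cons _ c _ h1 w1 =>
    cases w1 with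
    | nil => exact absurd h1 (by simp)
    | @cons _ d _ h2 w2 =>
      cases w2 with
      | nil =>
        exfalso
        rcases c with p | k
        · exact Finset.disjoint_left.1 hd h1 h2
        · exact h1
      | cons h3 w3 =>
        simp only [Walk.length_cons]
        omega

lemma diam_eq (N : ι → Finset P) (hN : ∀ i, (N i).Nonempty) [Nonempty P] (i j : ι) (hij : i ≠ j)
    (hd : Disjoint (N i) (N j)) : (splitGraph N).diam = 3 := by
  have hc := connected N hN
  have := hc.nonempty
  have hle : ∀ a b, (splitGraph N).edist a b ≤ (3 : ℕ) := by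
    intro a b
    obtain ⟨w, hw⟩ := walk_le_three N hN a b
    exact (SimpleGraph.edist_le w).trans (by exact_mod_cast hw)
  have he : (splitGraph N).ediam ≤ (3 : ℕ) := ediam_le_of_edist_le hle
  have hne : (splitGraph N).ediam ≠ ⊤ := by
    intro h
    rw [h] at he
    simp at he
  apply le_antisymm
  · obtain ⟨a, b, hab⟩ := (splitGraph N).exists_dist_eq_diam
    rw [← hab]
    obtain ⟨w, hw⟩ := walk_le_three N hN a b
    exact (SimpleGraph.dist_le w).trans hw
  · obtain ⟨w, hw⟩ := hc.exists_walk_length_eq_dist (Sum.inr i) (Sum.inr j)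
    have h3 := walk_ge_three N i j hij hd w
    rw [hw] at h3
    exact h3.trans (dist_le_diam hne)

end Dist

section Concrete

/-- Index type of the blocks: every subset with at least two elements once, every singleton
`(2 ^ (v - 2) - 1) ^ 2` times. -/
abbrev Idx (v : ℕ) : Type := {B : Finset (Fin v) // 2 ≤ B.card} ⊕ (Fin v × Fin ((2 ^ (v - 2) - 1) ^ 2))

/-- The blocks. -/
def blk (v : ℕ) : Idx v → Finset (Fin v) := Sum.elim (fun B => B.1) (fun x => {x.1})

lemma blk_nonempty (v : ℕ) (i : Idx v) : (blk v i).Nonempty := by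
  rcases i with B | x
  · have := B.2
    exact Finset.card_pos.1 (by simp only [blk, Sum.elim_inl]; omega)
  · simp [blk]

lemma card_super (v : ℕ) (s : Finset (Fin v)) :
    (Finset.univ.filter fun B : Finset (Fin v) => s ⊆ B).card = 2 ^ (v - s.card) := by
  have : (Finset.univ.filter fun B : Finset (Fin v) => s ⊆ B) = Finset.Icc s Finset.univ := by
    ext B
    simp
  rw [this, Finset.card_Icc_finset (Finset.subset_univ s)]
  simp

lemma card_pair (v : ℕ) (p q : Fin v) (h : p ≠ q) :
    (Finset.univ.filter fun B : {B : Finset (Fin v) // 2 ≤ B.card} => p ∈ B.1 ∧ q ∈ B.1).card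
      = 2 ^ (v - 2) := by
  have h1 := card_super v {p, q}
  rw [Finset.card_pair h] at h1
  rw [← h1]
  refine Finset.card_bij (fun B _ => B.1) ?_ ?_ ?_
  · intro B hB
    simp only [Finset.mem_filter, Finset.mem_univ, true_and] at hB ⊢
    intro x hx
    simp only [Finset.mem_insert, Finset.mem_singleton] at hx
    rcases hx with rfl | rfl
    · exact hB.1
    · exact hB.2
  · intro B _ B' _ hBB
    exact Subtype.ext hBB
  · intro B hB
    simp only [Finset.mem_filter, Finset.mem_univ, true_and] at hB
    refine ⟨⟨B, ?_⟩, ?_, rfl⟩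
    · rw [← Finset.card_pair h]
      exact Finset.card_le_card hB
    · simp only [Finset.mem_filter, Finset.mem_univ, true_and]
      exact ⟨hB (by simp), hB (by simp)⟩

lemma card_point (v : ℕ) (p : Fin v) :
    (Finset.univ.filter fun B : {B : Finset (Fin v) // 2 ≤ B.card} => p ∈ B.1).card + 1
      = 2 ^ (v - 1) := by
  have h1 := card_super v {p}
  rw [Finset.card_singleton] at h1
  rw [← h1]
  have h2 : (Finset.univ.filter fun B : Finset (Fin v) => {p} ⊆ B) =
      insert {p} ((Finset.univ.filter fun B : {B : Finset (Fin v) // 2 ≤ B.card} =>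
        p ∈ B.1).image Subtype.val) := by
    ext B
    simp only [Finset.mem_filter, Finset.mem_univ, true_and, Finset.singleton_subset_iff,
      Finset.mem_insert, Finset.mem_image]
    constructor
    · intro hp
      by_cases h : 2 ≤ B.card
      · right
        exact ⟨⟨B, h⟩, hp, rfl⟩
      · left
        have : B.card = 1 := by
          have := Finset.card_pos.2 ⟨p, hp⟩
          omega
        obtain ⟨x, rfl⟩ := Finset.card_eq_one.1 this
        simp only [Finset.mem_singleton] at hp
        rw [hp]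
    · rintro (rfl | ⟨B', hB', rfl⟩)
      · simp
      · exact hB'
  rw [h2, Finset.card_insert_of_notMem, Finset.card_image_of_injective _ Subtype.val_injective]
  simp

lemma design (v : ℕ) (hv : 3 ≤ v) : IsDesign (blk v) ((2 : ℝ) ^ (v - 2)) := by
  intro p q
  rw [Fintype.sum_sum_type]
  change (∑ B : {B : Finset (Fin v) // 2 ≤ B.card}, if p ∈ B.1 ∧ q ∈ B.1 then (1 : ℝ) else 0) +
    (∑ x : Fin v × Fin ((2 ^ (v - 2) - 1) ^ 2),
      if p ∈ ({x.1} : Finset (Fin v)) ∧ q ∈ ({x.1} : Finset (Fin v)) then (1 : ℝ) else 0) = _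
  rw [Finset.sum_boole, Fintype.sum_prod_type]
  by_cases h : p = q
  · subst h
    simp only [and_self, if_true]
    have h1 := card_point v p
    have h2 : (2 : ℕ) ^ (v - 1) = 2 * 2 ^ (v - 2) := by
      rw [← pow_succ']; congr 1; omega
    have h3 : ((Finset.univ.filter fun B : {B : Finset (Fin v) // 2 ≤ B.card} => p ∈ B.1).card : ℝ)
        = 2 * 2 ^ (v - 2) - 1 := by
      have : (((Finset.univ.filter fun B : {B : Finset (Fin v) // 2 ≤ B.card} => p ∈ B.1).card + 1
        : ℕ) : ℝ) = ((2 * 2 ^ (v - 2) : ℕ) : ℝ) := by rw [h1, h2]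
      push_cast at this
      linarith
    rw [h3]
    have h4 : (((2 ^ (v - 2) - 1) ^ 2 : ℕ) : ℝ) = ((2 : ℝ) ^ (v - 2) - 1) ^ 2 := by
      rw [Nat.cast_pow, Nat.cast_sub (Nat.one_le_two_pow)]
      push_cast
      ring
    have h5 : (∑ x : Fin v, ∑ _y : Fin ((2 ^ (v - 2) - 1) ^ 2),
        if p ∈ ({x} : Finset (Fin v)) then (1 : ℝ) else 0) = ((2 : ℝ) ^ (v - 2) - 1) ^ 2 := by
      simp only [Finset.sum_const, Finset.card_univ, Fintype.card_fin, nsmul_eq_mul,
        Finset.mem_singleton, mul_ite, mul_one, mul_zero, Finset.sum_ite_eq, Finset.mem_univ,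
        if_true]
      exact h4
    rw [h5]
    ring
  · rw [card_pair v p q h, if_neg h]
    have h6 : ∀ x : Fin v, ¬ (p ∈ ({x} : Finset (Fin v)) ∧ q ∈ ({x} : Finset (Fin v))) := by
      rintro x ⟨h1, h2⟩
      rw [Finset.mem_singleton] at h1 h2
      exact h (h1.trans h2.symm)
    simp only [h6, if_false, Finset.sum_const_zero, add_zero]
    push_cast
    rfl

lemma card_pos (v : ℕ) (hv : 3 ≤ v) : 0 < (2 ^ (v - 2) - 1) ^ 2 := by
  have : 2 ^ 1 ≤ 2 ^ (v - 2) := Nat.pow_le_pow_right (by norm_num) (by omega)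
  apply Nat.pow_pos
  omega

lemma ncard_four (v : ℕ) (hv : 3 ≤ v) :
    {θ : ℝ | ∃ x : Fin v ⊕ Idx v → ℝ, x ≠ 0 ∧
      ((splitGraph (blk v)).adjMatrix ℝ).mulVec x = θ • x}.ncard = 4 := by
  set μ : ℝ := (2 : ℝ) ^ (v - 2) with hμ
  have hD := design v hv
  rw [← hμ] at hD
  have hμ2 : 2 ≤ μ := by
    rw [hμ]
    calc (2 : ℝ) = 2 ^ 1 := by norm_num
      _ ≤ 2 ^ (v - 2) := pow_le_pow_right₀ (by norm_num) (by omega)
  have hv' : (3 : ℝ) ≤ v := by exact_mod_cast hv
  let a : Fin v := ⟨0, by omega⟩
  let b : Fin v := ⟨1, by omega⟩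
  have hab : a ≠ b := by
    intro h
    have := congrArg Fin.val h
    simp [a, b] at this
  have hset : {θ : ℝ | ∃ x : Fin v ⊕ Idx v → ℝ, x ≠ 0 ∧
      ((splitGraph (blk v)).adjMatrix ℝ).mulVec x = θ • x} = {μ + v - 1, μ - 1, -μ, 0} := by
    ext θ
    simp only [Set.mem_ofPred_eq, Set.mem_insert_iff, Set.mem_singleton_iff]
    constructor
    · rintro ⟨w, hw, h⟩
      have := eig_sub (blk v) μ hD θ w hw h
      simpa using this
    · rintro (rfl | rfl | rfl | rfl)
      · apply eig_mem (blk v) μ hD _ (by linarith) (fun _ => 1)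
        · intro h
          have := congrFun h a
          simp at this
        · intro p
          simp only [Finset.sum_const, Finset.card_univ, Fintype.card_fin, nsmul_eq_mul]
          ring
      · apply eig_mem (blk v) μ hD _ (by linarith) (Pi.single a 1 - Pi.single b 1)
        · intro h
          have := congrFun h a
          simp [hab] at this
        · intro p
          simp
      · apply eig_mem (blk v) μ hD _ (by linarith) (fun _ => 1)
        · intro h
          have := congrFun h a
          simp at this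
        · intro p
          simp
      · have hm := card_pos v hv
        let z : Fin ((2 ^ (v - 2) - 1) ^ 2) := ⟨0, hm⟩
        let iab : Idx v := Sum.inl ⟨{a, b}, by rw [Finset.card_pair hab]⟩
        let ia : Idx v := Sum.inr (a, z)
        let ib : Idx v := Sum.inr (b, z)
        have h1 : iab ≠ ia := by simp [iab, ia]
        have h2 : iab ≠ ib := by simp [iab, ib]
        have h3 : ia ≠ ib := by
          intro h
          simp only [ia, ib, Sum.inr.injEq, Prod.mk.injEq, and_true] at h
          exact hab h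
        apply eig_zero (blk v) (Pi.single iab 1 - Pi.single ia 1 - Pi.single ib 1)
        · intro h
          have := congrFun h iab
          simp [h1, h2] at this
        · intro p
          have h4 : ∀ (j : Idx v), (∑ i, if p ∈ blk v i then (Pi.single j (1 : ℝ) : Idx v → ℝ) i
              else 0) = if p ∈ blk v j then 1 else 0 := by
            intro j
            rw [Finset.sum_eq_single j]
            · simp
            · intro i _ hij
              simp [hij]
            · simp
          have h5 : (∑ i, if p ∈ blk v i then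
              (Pi.single iab (1 : ℝ) - Pi.single ia 1 - Pi.single ib 1 : Idx v → ℝ) i else 0) =
              (∑ i, if p ∈ blk v i then (Pi.single iab (1 : ℝ) : Idx v → ℝ) i else 0) -
              (∑ i, if p ∈ blk v i then (Pi.single ia (1 : ℝ) : Idx v → ℝ) i else 0) -
              (∑ i, if p ∈ blk v i then (Pi.single ib (1 : ℝ) : Idx v → ℝ) i else 0) := by
            rw [← Finset.sum_sub_distrib, ← Finset.sum_sub_distrib]
            refine Finset.sum_congr rfl fun i _ => ?_
            by_cases hp : p ∈ blk v i <;> simp [hp]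
          rw [h5, h4, h4, h4]
          have e1 : blk v iab = {a, b} := rfl
          have e2 : blk v ia = {a} := rfl
          have e3 : blk v ib = {b} := rfl
          rw [e1, e2, e3]
          by_cases ha : p = a
          · subst ha
            simp [hab]
          · by_cases hb : p = b
            · subst hb
              simp [hab.symm]
            · simp [ha, hb]
  rw [hset]
  rw [Set.ncard_insert_of_notMem, Set.ncard_insert_of_notMem, Set.ncard_insert_of_notMem,
    Set.ncard_singleton]
  · simp only [Set.mem_singleton_iff]; linarith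
  · simp only [Set.mem_insert_iff, Set.mem_singleton_iff]
    rintro (h | h) <;> linarith
  · simp only [Set.mem_insert_iff, Set.mem_singleton_iff]
    rintro (h | h | h) <;> linarith

lemma degree_inr (v : ℕ) (i : Idx v) :
    (splitGraph (blk v)).degree (Sum.inr i) = (blk v i).card := by
  rw [← card_neighborFinset_eq_degree]
  have : (splitGraph (blk v)).neighborFinset (Sum.inr i) = (blk v i).map Function.Embedding.inl := by
    ext a
    rcases a with p | j
    · simp
    · simp
  rw [this, Finset.card_map]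

lemma degree_inl (v : ℕ) (hv : 3 ≤ v) (p : Fin v) :
    (splitGraph (blk v)).degree (Sum.inl p) = v - 1 + (2 ^ (v - 2)) ^ 2 := by
  have h1 : ((splitGraph (blk v)).degree (Sum.inl p) : ℝ) = ((v : ℝ) - 1) + (2 ^ (v - 2)) ^ 2 := by
    have h2 := mulVec_inl (blk v) (fun _ => (1 : ℝ)) p
    have h3 := design v hv p p
    simp only [and_self, if_true] at h3
    rw [h3] at h2
    simp only [Finset.sum_const, Finset.card_univ, Fintype.card_fin, nsmul_eq_mul, mul_one] at h2
    rw [← h2]
    have := adjMatrix_mulVec_const_apply (G := splitGraph (blk v)) (α := ℝ) (a := 1)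
      (v := Sum.inl p)
    rw [mul_one] at this
    exact this.symm
  have h4 : ((v : ℝ) - 1) = ((v - 1 : ℕ) : ℝ) := by
    rw [Nat.cast_sub (by omega)]; simp
  rw [h4] at h1
  exact_mod_cast h1

lemma image_degree (v : ℕ) (hv : 3 ≤ v) :
    (Finset.univ.image fun a => (splitGraph (blk v)).degree a) =
      insert (v - 1 + (2 ^ (v - 2)) ^ 2) (Finset.Icc 1 v) := by
  ext d
  simp only [Finset.mem_image, Finset.mem_univ, true_and, Finset.mem_insert, Finset.mem_Icc]
  constructor
  · rintro ⟨p | i, rfl⟩
    · left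
      exact degree_inl v hv p
    · right
      rw [degree_inr]
      refine ⟨Finset.card_pos.2 (blk_nonempty v i), ?_⟩
      simpa using Finset.card_le_univ (blk v i)
  · rintro (rfl | ⟨h1, h2⟩)
    · exact ⟨Sum.inl ⟨0, by omega⟩, degree_inl v hv _⟩
    · by_cases h : d = 1
      · subst h
        refine ⟨Sum.inr (Sum.inr (⟨0, by omega⟩, ⟨0, card_pos v hv⟩)), ?_⟩
        rw [degree_inr]
        simp [blk]
      · obtain ⟨B, hB⟩ := Finset.exists_subset_card_eq (s := (Finset.univ : Finset (Fin v)))
          (n := d) (by simpa using h2)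
        refine ⟨Sum.inr (Sum.inl ⟨B, by omega⟩), ?_⟩
        rw [degree_inr]
        exact hB.2

end Concrete

/-- For every `t ≥ 4` some 3-extremal split graph has exactly `t` distinct vertex degrees. -/
theorem main (t : ℕ) (ht : 4 ≤ t) :
    ∃ (V : Type) (_ : Fintype V) (_ : DecidableEq V) (G : SimpleGraph V) (_ : DecidableRel G.Adj),
      IsThreeExtremalSplit G ∧ (Finset.univ.image fun a => G.degree a).card = t := by
  obtain ⟨v, rfl⟩ : ∃ v, t = v + 1 := ⟨t - 1, by omega⟩
  have hv : 3 ≤ v := by omega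
  refine ⟨Fin v ⊕ Idx v, inferInstance, inferInstance, splitGraph (blk v), decAdj (blk v), ?_, ?_⟩
  · have : Nonempty (Fin v) := ⟨⟨0, by omega⟩⟩
    refine ⟨isSplit (blk v), connected (blk v) (blk_nonempty v), ?_, ncard_four v hv⟩
    apply diam_eq (blk v) (blk_nonempty v)
      (Sum.inr (⟨0, by omega⟩, ⟨0, card_pos v hv⟩)) (Sum.inr (⟨1, by omega⟩, ⟨0, card_pos v hv⟩))
    · intro h
      simp at h
    · simp [blk]
  · rw [image_degree v hv, Finset.card_insert_of_notMem]
    · simp
    · simp only [Finset.mem_Icc, not_and, not_le]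
      intro _
      have h1 : 2 ^ 1 ≤ 2 ^ (v - 2) := Nat.pow_le_pow_right (by norm_num) (by omega)
      have h2 : (2 ^ 1) ^ 2 ≤ (2 ^ (v - 2)) ^ 2 := Nat.pow_le_pow_left h1 2
      omega

end Pool.Agent.Lib.MP_6460d1_co
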